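import Pool.Agent.W477.GM.Stms

set_option maxHeartbeats 1000000
set_option linter.all false

namespace Pool.Agent.W428.GM.ZFM

open Pool.Agent.W477.GM
open FirstOrder FirstOrder.Language
open Pool.Agent.Helper672.Plain (LSet Mem)
open Pool.Agent.H635Amen (ZF)

section

variable {M : Type 1} {mem : M → M → Prop}

/-- satisfaction -/
abbrev Sat (mem : M → M → Prop) (φ : Fm) (v : ℕ → M) : Prop := SatR mem (fun _ => True) φ v

theorem sat_eq (i j : ℕ) (v : ℕ → M) : Sat mem (.eq i j) v ↔ v i = v j := Iff.rfl
theorem sat_mem (i j : ℕ) (v : ℕ → M) : Sat mem (.mem i j) v ↔ mem (v i) (v j) := Iff.rfl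
theorem sat_imp (a b : Fm) (v : ℕ → M) : Sat mem (.imp a b) v ↔ (Sat mem a v → Sat mem b v) :=
  Iff.rfl
theorem sat_all (i : ℕ) (a : Fm) (v : ℕ → M) :
    Sat mem (.all i a) v ↔ ∀ x, Sat mem a (Function.update v i x) :=
  ⟨fun h x => h x trivial, fun h x _ => h x⟩
theorem sat_neg (a : Fm) (v : ℕ → M) : Sat mem (.neg a) v ↔ ¬ Sat mem a v := Iff.rfl
theorem sat_and (a b : Fm) (v : ℕ → M) :
    Sat mem (.and a b) v ↔ Sat mem a v ∧ Sat mem b v := by
  unfold Fm.and
  rw [sat_neg, sat_imp, sat_neg]
  tauto
theorem sat_or (a b : Fm) (v : ℕ → M) :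
    Sat mem (.or a b) v ↔ Sat mem a v ∨ Sat mem b v := by
  unfold Fm.or
  rw [sat_imp, sat_neg]
  tauto
theorem sat_iff (a b : Fm) (v : ℕ → M) :
    Sat mem (.iff a b) v ↔ (Sat mem a v ↔ Sat mem b v) := by
  unfold Fm.iff
  rw [sat_and, sat_imp, sat_imp]
  tauto
theorem sat_ex (i : ℕ) (a : Fm) (v : ℕ → M) :
    Sat mem (.ex i a) v ↔ ∃ x, Sat mem a (Function.update v i x) := by
  unfold Fm.ex
  rw [sat_neg, sat_all]
  simp only [sat_neg]
  push Not
  rfl

theorem sat_congr (φ : Fm) : ∀ v w : ℕ → M, (∀ i, i < φ.bd → v i = w i) →
    (Sat mem φ v ↔ Sat mem φ w) := by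
  induction φ with
  | eq i j =>
    intro v w h
    rw [sat_eq, sat_eq, h i (by simp only [Fm.bd]; omega), h j (by simp only [Fm.bd]; omega)]
  | mem i j =>
    intro v w h
    rw [sat_mem, sat_mem, h i (by simp only [Fm.bd]; omega), h j (by simp only [Fm.bd]; omega)]
  | fls => intro v w _; exact Iff.rfl
  | imp a b iha ihb =>
    intro v w h
    rw [sat_imp, sat_imp, iha v w (fun i hi => h i (by simp only [Fm.bd]; omega)),
      ihb v w (fun i hi => h i (by simp only [Fm.bd]; omega))]
  | all i a iha =>
    intro v w h
    rw [sat_all, sat_all]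
    refine forall_congr' fun x => iha _ _ fun j hj => ?_
    by_cases hji : j = i
    · subst hji
      rw [Function.update_self, Function.update_self]
    · rw [Function.update_of_ne hji, Function.update_of_ne hji]
      exact h j (by simp only [Fm.bd]; omega)

end

theorem zfm_holds (h : P_CONV) (h2 : P_CONV2) : P_ZFM := by
  intro M _ hM hax
  have hax' : ∀ σ, Fm.IsAx σ → ∀ v : ℕ → M, Sat Mem σ v := hax
  obtain ⟨m0⟩ := hM
  refine { ext := ?_, pairing := ?_, union := ?_, power := ?_, infinity := ?_, separation := ?_,
           foundation := ?_, replacement := ?_ }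
  · intro x y hxy
    have h3 := hax' _ .ext (fun i => if i = 0 then x else y)
    simp only [Fm.axExt, sat_imp, sat_all, sat_iff, sat_mem, sat_eq, Function.update_apply] at h3
    simpa using h3 (by simpa using hxy)
  · intro x y
    have h3 := hax' _ .pair (fun i => if i = 0 then x else y)
    simp only [Fm.axPair, sat_ex, sat_all, sat_iff, sat_or, sat_mem, sat_eq,
      Function.update_apply] at h3
    simpa using h3
  · intro x
    have h3 := hax' _ .union (fun i => x)
    simp only [Fm.axUnion, sat_ex, sat_all, sat_iff, sat_and, sat_mem, sat_eq,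
      Function.update_apply] at h3
    simpa using h3
  · intro x
    have h3 := hax' _ .pow (fun i => x)
    simp only [Fm.axPow, sat_ex, sat_all, sat_iff, sat_imp, sat_mem, sat_eq,
      Function.update_apply] at h3
    simpa using h3
  · have h3 := hax' _ .inf (fun i => m0)
    simp only [Fm.axInf, sat_ex, sat_all, sat_iff, sat_imp, sat_and, sat_or, sat_neg, sat_mem,
      sat_eq, Function.update_apply] at h3
    simpa using h3
  · intro S hS x
    obtain ⟨φ, v, -, hφ⟩ := h M Set.univ S ⟨m0, trivial⟩ hS
    have hφ' : ∀ x, x ∈ S ↔ Sat Mem φ (Function.update v 0 x) := hφ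
    have h3 := hax' _ (.sep φ (max φ.bd 1) (le_max_left _ _) (le_max_right _ _))
      (Function.update v (max φ.bd 1) x)
    obtain ⟨m, hm⟩ : ∃ m, m = max φ.bd 1 := ⟨_, rfl⟩
    rw [← hm] at h3
    have hm1 : φ.bd ≤ m := by omega
    have hm2 : 1 ≤ m := by omega
    simp only [Fm.axSep, sat_ex, sat_all, sat_iff, sat_and, sat_mem] at h3
    obtain ⟨y, hy⟩ := h3
    refine ⟨y, fun z => ?_⟩
    have h4 := hy z
    rw [Function.update_self, Function.update_of_ne (by omega), Function.update_self,
      Function.update_of_ne (by omega), Function.update_of_ne (by omega),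
      Function.update_self] at h4
    rw [h4, hφ']
    refine and_congr_right fun _ => sat_congr φ _ _ fun i hi => ?_
    by_cases h0 : i = 0
    · subst h0
      rw [Function.update_self, Function.update_self]
    · rw [Function.update_of_ne h0, Function.update_of_ne h0, Function.update_of_ne (by omega),
        Function.update_of_ne (by omega)]
  · intro x hx
    have h3 := hax' _ .found (fun i => x)
    simp only [Fm.axFound, sat_ex, sat_all, sat_iff, sat_imp, sat_and, sat_or, sat_neg, sat_mem,
      sat_eq, Function.update_apply] at h3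
    simpa using h3 (by simpa using hx)
  · intro F hF a hFa
    obtain ⟨φ, v, hφ⟩ := h2 M F ⟨m0⟩ hF
    have hφ' : ∀ x y, (x, y) ∈ F ↔
      Sat Mem φ (Function.update (Function.update v 0 x) 1 y) := hφ
    have h3 := hax' _ (.rep φ (max φ.bd 2) (le_max_left _ _) (le_max_right _ _))
      (Function.update v (max φ.bd 2) a)
    obtain ⟨m, hm⟩ : ∃ m, m = max φ.bd 2 := ⟨_, rfl⟩
    rw [← hm] at h3
    have hm1 : φ.bd ≤ m := by omega
    have hm2 : 2 ≤ m := by omega
    simp only [Fm.axRep, sat_ex, sat_all, sat_iff, sat_imp, sat_and, sat_mem, sat_eq] at h3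
    have h4 := h3 (by
      intro x hx
      rw [Function.update_self, Function.update_of_ne (by omega), Function.update_self] at hx
      obtain ⟨u, hu1, hu2⟩ := hFa x hx
      refine ⟨u, fun y => ?_⟩
      rw [Function.update_self, Function.update_of_ne (by omega), Function.update_self]
      have h5 : Sat Mem φ (Function.update (Function.update (Function.update
          (Function.update v m a) 0 x) (m + 2) u) 1 y) ↔ (x, y) ∈ F := by
        rw [hφ']
        refine sat_congr φ _ _ fun i hi => ?_
        by_cases h1 : i = 1
        · subst h1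
          rw [Function.update_self, Function.update_self]
        · rw [Function.update_of_ne h1, Function.update_of_ne h1,
            Function.update_of_ne (by omega)]
          by_cases h0 : i = 0
          · subst h0
            rw [Function.update_self, Function.update_self]
          · rw [Function.update_of_ne h0, Function.update_of_ne h0,
              Function.update_of_ne (by omega)]
      rw [h5]
      constructor
      · exact fun h => hu2 y h
      · rintro rfl
        exact hu1)
    obtain ⟨b, hb⟩ := h4
    refine ⟨b, fun y => ?_⟩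
    have h5 := hb y
    rw [Function.update_self, Function.update_of_ne (by omega), Function.update_self] at h5
    rw [h5]
    refine exists_congr fun x => ?_
    rw [Function.update_self, Function.update_of_ne (by omega), Function.update_of_ne (by omega),
      Function.update_of_ne (by omega), Function.update_self]
    refine and_congr_right fun _ => ?_
    rw [hφ']
    refine sat_congr φ _ _ fun i hi => ?_
    by_cases h0 : i = 0
    · subst h0
      rw [Function.update_self, Function.update_of_ne (by omega), Function.update_self]
    · rw [Function.update_of_ne h0]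
      by_cases h1 : i = 1
      · subst h1
        rw [Function.update_self, Function.update_self]
      · rw [Function.update_of_ne h1, Function.update_of_ne h1, Function.update_of_ne (by omega),
          Function.update_of_ne (by omega), Function.update_of_ne h0]

end Pool.Agent.W428.GM.ZFM
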